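import Pool.Agent.H.MP_520f61_co.Main

set_option autoImplicit false

namespace Pool.Agent.Results.MP_520f61_co.FullDetermination

open Pool.Agent.H.MP_520f61_co

/-- For every pair `d ≥ k ≥ 0` the set `S d k` of all `ℓ` such that every `ℓ`-edge path in every
`d`-regular `k`-connected graph closes to a cycle. -/
theorem result (d k : ℕ) (hkd : k ≤ d) :
    S d k =
      if d = 0 then {ℓ | 1 ≤ ℓ}
      else if d = 1 then {ℓ | 2 ≤ ℓ}
      else if d = 2 then Set.univ
      else if k ≤ 1 then (if Even d then {0, 1} else ∅)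
      else if d = 3 ∧ k = 3 then {ℓ | ℓ ≤ 4}
      else {ℓ | ℓ ≤ k} :=
  S_eq d k hkd

end Pool.Agent.Results.MP_520f61_co.FullDetermination
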